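import Pool.Agent.helper37.NA.Spec

/-!
# THEOREM NA, row NQ5: uniqueness of the block of `H` with defect group `D` and given induced block
-/

set_option autoImplicit false

namespace Pool.Agent.NAB

open Pool.Agent.helper58.DC Pool.Agent.DI Pool.Agent.GR Pool.Agent.OB Pool.Agent.DR Pool.Agent.FI Pool.Agent.FI3 Pool.Agent.FI4 Pool.Agent.FI4I Pool.Agent.LE Pool.Agent.L5

theorem NQ5 (hNQB : NQB_stmt) (hNQC : NQC_stmt) (hDGW : DGW_stmt) (hCCI : CCI_stmt) (hSBI : SBI_stmt)
    (hCLS : CLS_stmt) (hCVF : CVF_stmt) (hC3 : C3_stmt) : NQ5_stmt := by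
  intro p M hS G _ _ L H D hHL hDH η hη η' hη' y y' hD hD' ψ hψ hψ'
  classical
  obtain ⟨hlin, hmul, hint⟩ := hCCI G H η hη
  obtain ⟨hlin', hmul', hint'⟩ := hCCI G H η' hη'
  obtain ⟨k1, k2, k3, k4, k5, -, -, -, -⟩ := hCLS G H y
  have hkI : ∀ u, IntAt M (cls H y u) := fun u => IntAt.of_isIntegral hS (k3 u)
  have hCFk : CF H (cls H y) := k2 hD.mem
  have hDleH : D ≤ H := fun d hd => (Subgroup.mem_inf.1 (hD.le hd)).1
  -- claim (a)
  have ha : ∀ g : G → ℂ, CF H g → (∀ x, IntAt M (g x)) →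
      (∀ u, g u ≠ 0 → ∃ h ∈ H, D ≤ Cz H (h * u * h⁻¹) ∧ Nat.card D = pp p (Cz H (h * u * h⁻¹))) →
      InM M (cc η g - cc η' g) := by
    intro g hg hgI hgs
    obtain ⟨F, hF, hFI, hFc⟩ := hNQC p M hS G L H D hHL hD.pg hDleH hDH g hg hgI hgs
    have h1 := hFc η hη y hD
    have h2 := hFc η' hη' y' hD'
    have h3 := (hSBI p M hS G L η ψ hψ).1 F hF hFI
    have h4 := (hSBI p M hS G L η' ψ hψ').1 F hF hFI
    have h5 := ((h1.add hS h3).sub hS h4).sub hS h2
    have e : cc η g - cc η' g = cc η g - cc η F + (cc η F - cc ψ F) - (cc η' F - cc ψ F) - (cc η' g - cc η' F) := by ring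
    rw [e]
    exact h5
  -- (b)
  have hb : InM M (cc η (cls H y) - cc η' (cls H y)) := by
    refine ha _ hCFk hkI fun u hu => ?_
    rcases k5 u with h0 | h1
    · exact absurd h0 hu
    obtain ⟨l, hl, hlu⟩ := (k4 u).1 h1
    refine ⟨l⁻¹, inv_mem hl, ?_⟩
    have e : l⁻¹ * u * l⁻¹⁻¹ = y := by rw [← hlu]; group
    rw [e]
    exact ⟨hD.le, hD.card⟩
  -- (c)
  intro f hf hfi
  have hfI : ∀ x, IntAt M (f x) := fun x => IntAt.of_isIntegral hS (hfi x)
  obtain ⟨-, -, -, -, -, -, -, v8, -, -, v11, -⟩ := hCVF G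
  set w : G → ℂ := cv (cls H y) f with hw
  have hwCF : CF H w := (v8 H _ _ hCFk hf).1
  have hwI : ∀ x, IntAt M (w x) := v11 p M hS _ _ hkI hfI
  set good : G → Prop := fun u => ∃ h ∈ H, D ≤ Cz H (h * u * h⁻¹) ∧ Nat.card D = pp p (Cz H (h * u * h⁻¹)) with hgood
  have hgc : ∀ l ∈ H, ∀ u, good u → good (l * u * l⁻¹) := by
    rintro l hl u ⟨h, hh, h1⟩
    refine ⟨h * l⁻¹, mul_mem hh (inv_mem hl), ?_⟩
    have e : h * l⁻¹ * (l * u * l⁻¹) * (h * l⁻¹)⁻¹ = h * u * h⁻¹ := by group
    rw [e]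
    exact h1
  have hgc' : ∀ l ∈ H, ∀ u, good (l * u * l⁻¹) ↔ good u := by
    intro l hl u
    refine ⟨fun h => ?_, hgc l hl u⟩
    have h2 := hgc l⁻¹ (inv_mem hl) _ h
    have e : l⁻¹ * (l * u * l⁻¹) * l⁻¹⁻¹ = u := by group
    rwa [e] at h2
  set g : G → ℂ := fun u => if good u then w u else 0 with hg
  have hgCF : CF H g := by
    constructor
    · intro l hl x
      change (if good (l * x * l⁻¹) then w (l * x * l⁻¹) else 0) = if good x then w x else 0
      rw [hwCF.1 l hl x]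
      by_cases hx : good x
      · rw [if_pos hx, if_pos ((hgc' l hl x).2 hx)]
      · rw [if_neg hx, if_neg fun h => hx ((hgc' l hl x).1 h)]
    · intro x hx
      change (if good x then w x else 0) = 0
      rw [hwCF.2 x hx]
      simp
  have hgI : ∀ x, IntAt M (g x) := by
    intro x
    change IntAt M (if good x then w x else 0)
    by_cases hx : good x
    · rw [if_pos hx]; exact hwI x
    · rw [if_neg hx]; exact IntAt.of_isIntegral hS isIntegral_zero
  have hgs : ∀ u, g u ≠ 0 → good u := by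
    intro u hu
    by_contra h
    exact hu (if_neg h)
  have hag := ha g hgCF hgI hgs
  have hdCF : CF H (w - g) := (v8 H _ _ hwCF hgCF).2.2
  have hdI : ∀ x, IntAt M ((w - g) x) := by
    intro x
    change IntAt M (w x - (if good x then w x else 0))
    by_cases hx : good x
    · rw [if_pos hx, sub_self]; exact IntAt.of_isIntegral hS isIntegral_zero
    · rw [if_neg hx, sub_zero]; exact hwI x
  have hdM : ∀ u ∈ H ⊓ cz D, InM M ((w - g) u) := by
    intro u hu
    change InM M (w u - (if good u then w u else 0))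
    by_cases hx : good u
    · rw [if_pos hx, sub_self]; exact InM.zero hS
    · rw [if_neg hx, sub_zero]
      rcases hNQB p M hS G H D hD.pg hDleH y hD.mem hD.card f hf hfI u hu with h | h
      · exact h
      · exfalso
        refine hx ⟨1, one_mem H, ?_⟩
        have e : (1 : G) * u * 1⁻¹ = u := by group
        rw [e]
        refine ⟨fun d hd => ?_, h⟩
        refine Subgroup.mem_inf.2 ⟨hDleH hd, ?_⟩
        rw [Subgroup.mem_centralizer_iff]
        intro v hv
        rw [Set.mem_singleton_iff.1 hv]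
        exact (Subgroup.mem_centralizer_iff.1 (Subgroup.mem_inf.1 hu).2 d hd).symm
  have h1 := hDGW p M hS G H η hη D y hD (w - g) hdCF hdI hdM
  have h2 := hDGW p M hS G H η' hη' D y' hD' (w - g) hdCF hdI hdM
  rw [(hlin 1 w g).2.1] at h1
  rw [(hlin' 1 w g).2.1] at h2
  have h3 : InM M (cc η w - cc η' w) := by
    have e : cc η w - cc η' w = cc η w - cc η g - (cc η' w - cc η' g) + (cc η g - cc η' g) := by ring
    rw [e]
    exact (h1.sub hS h2).add hS hag
  have hcI : IntAt M (cc η (cls H y)) := (hint p M hS _ k1).1 hkI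
  have hfI1 : IntAt M (cc η f) := (hint p M hS _ hf.1).1 hfI
  have hfI2 : IntAt M (cc η' f) := (hint' p M hS _ hf.1).1 hfI
  have h4 : InM M (cc η (cls H y) * (cc η f - cc η' f)) := by
    have h5 : InM M ((cc η (cls H y) - cc η' (cls H y)) * cc η' f) := InM.mul_right hS hb hfI2
    have e : cc η (cls H y) * (cc η f - cc η' f)
        = cc η w - cc η' w - (cc η (cls H y) - cc η' (cls H y)) * cc η' f := by
      rw [hw, hmul _ _ hCFk hf, hmul' _ _ hCFk hf]
      ring
    rw [e]
    exact h3.sub hS h5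
  have h6 : InM M (cc η f - cc η' f) := by
    rcases InM.or hS hcI (hfI1.sub hS hfI2) h4 with h | h
    · exact absurd h hD.ne
    · exact h
  exact InM.mcong hS ((hC3 G).1 H η hη f hf.1 hfi) ((hC3 G).1 H η' hη' f hf.1 hfi) h6

end Pool.Agent.NAB
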