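import Pool.Agent.helper97.NA.SpecE

/-!
# Project NA (MP_baa4d7_al), row XMF: the claim for the traces of an automorphism if `E ≤ R`
-/

set_option autoImplicit false

namespace Pool.Agent.NAB

open Pool.Agent.helper58.DC Pool.Agent.DI Pool.Agent.GR Pool.Agent.OB Pool.Agent.DR Pool.Agent.FI Pool.Agent.FI3 Pool.Agent.FI4 Pool.Agent.FI4I Pool.Agent.FI4E Pool.Agent.LE Pool.Agent.L5

theorem XMF_nz {G : Type} [Group G] {R : Subgroup G} (h : nz R = ⊤) : nz (R ⊓ cz R) = ⊤ := by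
  have key : ∀ g x : G, x ∈ R ⊓ cz R → g * x * g⁻¹ ∈ R ⊓ cz R := by
    intro g x hx
    have hg : g ∈ nz R := by
      rw [h]
      exact Subgroup.mem_top g
    exact ⟨(Subgroup.mem_normalizer_iff.1 hg x).1 hx.1, Pool.Agent.FI.cz_conj hg hx.2⟩
  rw [eq_top_iff]
  intro g _
  rw [Subgroup.mem_normalizer_iff]
  intro x
  constructor
  · exact fun hx => key g x hx
  · intro hx
    have h1 := key g⁻¹ _ hx
    have h2 : g⁻¹ * (g * x * g⁻¹) * g⁻¹⁻¹ = x := by group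
    rwa [h2] at h1

theorem XMF (hNOP : NOP_stmt) (hNFA : NFA_stmt) (hNFS : NFS_stmt) (hNFE : NFE_stmt) (hXFX : XFX_stmt)
    (hXFR : XFR_stmt) (hXTB : XTB_stmt) (hTSI : TSI_stmt) (hBAA : BAA_stmt) (hNEG : NEG_stmt) (hTRN : TRN_stmt)
    (hTPR : FI.TPR_stmt) : XMF_stmt := by
  intro p e m M hS hme G _ _ χ hχ z x hU R hR hRn hER α hαR hαE hSt
  obtain ⟨_, hE2, _, hE4, _⟩ := hNEG p e hS.pr G z
  have hR₁ : IsPGroup p (R ⊓ cz R : Subgroup G) := hR.to_le inf_le_left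
  have hcom : ∀ a ∈ R ⊓ cz R, ∀ b ∈ R ⊓ cz R, a * b = b * a := by
    intro a ha b hb
    exact Subgroup.mem_centralizer_iff.1 hb.2 a ha.1
  have hnz := XMF_nz hRn
  have hzx : z * x ∈ cz R := hNOP p M hS G χ hχ R hR hRn _ hU.ne
  have hz : z ∈ cz R := ((hE4 x hU.pe hU.re hU.co (cz R)).2.2.2 hzx).1
  have hER₁ : Eg p e z ≤ R ⊓ cz R := le_inf hER (hE2 _ hz)
  obtain ⟨ψ₁, hψ₁, hSB, hU₁⟩ := hNFA p e m M hS G χ hχ z x hU (R ⊓ cz R) hR₁ hnz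
  obtain ⟨hTT, _, _⟩ := hNFS p e m M hS hme G (R ⊓ cz R) ψ₁ hψ₁ z x hU₁ hER₁
  have hαR₁ : am α (R ⊓ cz R) = R ⊓ cz R := by
    obtain ⟨⟨b1, -, -, b4, -⟩, -⟩ := hBAA G M p α R (cz R) ⊤ χ χ χ
    rw [b4, ← b1, hαR]
  obtain ⟨g, hg, hgS⟩ := hXFX p e m M hS hme G χ hχ z x α hαE hSt (R ⊓ cz R) hnz hαR₁ hER₁ ψ₁ hψ₁ hSB hU₁
  have hβR₁ : am (al α g) (R ⊓ cz R) = R ⊓ cz R := by
    rw [am_al, hαR₁]
    refine cj_nz.2 ?_
    rw [hnz]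
    exact Subgroup.mem_top g
  have hβE : am (al α g) (Eg p e z) = Eg p e z := by
    rw [am_al, hαE]
    exact cj_nz.2 hg
  have hβN : am (al α g) (nz (Eg p e z)) = nz (Eg p e z) := by
    obtain ⟨⟨-, b2, -⟩, -⟩ := hBAA G M p (al α g) (Eg p e z) (cz R) ⊤ χ χ χ
    rw [← b2, hβE]
  have hαN : am α (nz (Eg p e z)) = nz (Eg p e z) := by
    obtain ⟨⟨-, b2, -⟩, -⟩ := hBAA G M p α (Eg p e z) (cz R) ⊤ χ χ χ
    rw [← b2, hαE]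
  have hαT : am α (⊤ : Subgroup G) = ⊤ := (hBAA G M p α R R ⊤ χ χ χ).1.2.2.2.2.2.1
  have hβT : am (al α g) (⊤ : Subgroup G) = ⊤ := (hBAA G M p (al α g) R R ⊤ χ χ χ).1.2.2.2.2.2.1
  have h1 := hXFR p M hS G (R ⊓ cz R) hR₁ hcom hnz ψ₁ hψ₁ (al α g) hβR₁ hgS ⊤ le_top hβT
  have h2 := hXFR p M hS G (R ⊓ cz R) hR₁ hcom hnz ψ₁ hψ₁ (al α g) hβR₁ hgS (nz (Eg p e z)) hTT hβN
  have h3 := hNFE p e m M hS hme G χ hχ z x hU (R ⊓ cz R) hR₁ hcom hnz hER₁ ψ₁ hψ₁ hSB hU₁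
  have h4 : Bl M (⊤ : Subgroup G) χ = Bl M (⊤ : Subgroup G) ψ₁ := by
    ext φ
    constructor
    · exact fun h => ⟨h.1, h.2.trans hSB.symm⟩
    · exact fun h => ⟨h.1, h.2.trans hSB⟩
  have h5 : tE p M (⊤ : Subgroup G) χ α = tE p M (⊤ : Subgroup G) ψ₁ (al α g) := by
    unfold tE
    rw [h4]
    exact ((hTSI p G ⊤ α hαT g (Subgroup.mem_top g)).2 (Bl M ⊤ ψ₁) fun φ hφ => hφ.1).symm
  have h6 : tE p M (nz (Eg p e z)) ψ₁ (al α g) =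
      tB p e m M (⊤ : Subgroup G) (nz (Eg p e z)) (Eg p e z) χ (al α g) := by
    unfold tE tB
    rw [h3]
  have h7 := (hXTB p e m M hS G ⊤ (nz (Eg p e z)) (Eg p e z) χ α).2.1 hαN g hg
  rw [h5, h1, ← h2, h6, h7]

end Pool.Agent.NAB
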